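import Pool.Agent.H65.TIE.Dens
import Pool.Agent.H88.TIE.Ic
import Pool.Agent.H12.MICA.Ent
import Pool.Agent.H41.GSD.Defs

/-!
# STEP V, class side: nonfull rows of a cell, for sub-laws

The rows `NF` of a cell (events, multiples of `z`, heights over the visible side) give the rows
`NFd` of STEP V (sub-laws of bounded density, all rows longer than `κ h₀`, heights over the line
side, the base to `X` digits in any form from which the natural coordinates can be read).
-/

set_option autoImplicit false

namespace Pool.TIE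

open Finset MvPolynomial
open Pool.Agent.H49.Ent Pool.Agent.H32.Dense Pool.STK Pool.STAT Pool.BFL Pool.MicA

/-- A sub-law lives on the support. -/
theorem SubL.pos {Ω : Type} [Fintype Ω] {p : Ω → ℝ} {c : ℝ} {Ω' : Type} [Fintype Ω'] {q : Ω' → ℝ}
    {f : Ω' → Ω} (h : SubL p c q f) (hc : 0 < c) {w : Ω'} (hw : 0 < q w) : 0 < p (f w) := by
  have h1 := le_law h.isLaw.nonneg f w
  have h2 := h.dens (f w)
  have h3 : 0 < c * Pool.Agent.H49.Ent.law q f (f w) := mul_pos hc (lt_of_lt_of_le hw h1)
  linarith only [h2, h3]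

/-- The digits after the first ones. -/
theorem dig_split (a b : ℕ) (x : ℝ) : 0 ≤ ⌊(2 : ℝ) ^ (a + b) * x⌋ - 2 ^ b * ⌊(2 : ℝ) ^ a * x⌋ ∧
    ⌊(2 : ℝ) ^ (a + b) * x⌋ - 2 ^ b * ⌊(2 : ℝ) ^ a * x⌋ < 2 ^ b := by
  have h2 : (0 : ℝ) < 2 ^ b := by positivity
  have e : (2 : ℝ) ^ (a + b) * x = 2 ^ b * (2 ^ a * x) := by rw [pow_add]; ring
  have h3 := Int.floor_le ((2 : ℝ) ^ a * x)
  have h4 := Int.lt_floor_add_one ((2 : ℝ) ^ a * x)
  have h5 : (2 : ℝ) ^ b * (⌊(2 : ℝ) ^ a * x⌋ : ℝ) ≤ 2 ^ (a + b) * x := by
    rw [e]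
    exact mul_le_mul_of_nonneg_left h3 h2.le
  have h6 : (2 : ℝ) ^ (a + b) * x < 2 ^ b * (⌊(2 : ℝ) ^ a * x⌋ : ℝ) + 2 ^ b := by
    rw [e]
    have := mul_lt_mul_of_pos_left h4 h2
    linarith only [this]
  constructor
  · have : (2 ^ b * ⌊(2 : ℝ) ^ a * x⌋ : ℤ) ≤ ⌊(2 : ℝ) ^ (a + b) * x⌋ := by
      refine Int.le_floor.2 ?_
      push_cast
      exact h5
    linarith only [this]
  · have : ⌊(2 : ℝ) ^ (a + b) * x⌋ < (2 ^ b * ⌊(2 : ℝ) ^ a * x⌋ + 2 ^ b : ℤ) := by
      refine Int.floor_lt.2 ?_
      push_cast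
      exact h6
    linarith

theorem dg_eq' {r : ℕ} {x x' : ℝ} (h : dg r x = dg r x') : |x - x'| ≤ 1 / 2 ^ r := dig_eq h

theorem log_exp_le {a b A z : ℝ} (ha : 0 ≤ a) (hA : 0 ≤ A * z) (hb : 2 * a + 3 ≤ b) :
    Real.log (2 * (a * Real.exp (A * z) + 1) + 1) ≤ Real.log b + A * z := by
  have h1 : 1 ≤ Real.exp (A * z) := Real.one_le_exp hA
  have h2 : 2 * (a * Real.exp (A * z) + 1) + 1 ≤ b * Real.exp (A * z) := by
    have h3 := mul_le_mul_of_nonneg_right hb (show 0 ≤ Real.exp (A * z) by linarith only [h1])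
    linarith
  have h3 := Real.log_le_log (by positivity) h2
  rwa [Real.log_mul (by linarith only [ha, hb]) (by linarith), Real.log_exp] at h3

/-- **Nonfull rows for sub-laws.** -/
theorem nfd_gen (n K B : ℕ) (C₁ h κ π A : ℝ) (hn : 1 ≤ n) (hB : 1 ≤ B) (hh : 0 < h) (hh1 : h ≤ 1)
    (hκ : 0 < κ) (hπ : 0 < π) (hA : 0 ≤ A) : ∃ (H₀ z₀ : ℕ) (ϖ : ℝ), 0 < ϖ ∧
    ∀ (D : NDat2) (J a₀ w₀ z M : ℕ) (lam gam : ℕ → ℝ) (κ' : ℝ) (q : D.Ω → ℝ),
      D.Ok2 n K J a₀ w₀ z M lam gam κ' C₁ q → D.NF n z M B gam h C₁ ϖ q → z₀ ≤ z →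
      ∀ i j H X : ℕ, i + (H / z + 1) ≤ M → j ≤ M →
      (((H / z : ℕ) : ℝ) + 1) ≤ gam n * (M - j) → H₀ * z ≤ H → B * (H + z) ≤ X →
      ∀ {𝒱 : Type} (V : D.Ω → 𝒱) (nr : D.Ω → ℝ),
      (∀ ω ω', 0 < q ω → 0 < q ω' → V ω = V ω' → D.c i j ω = D.c i j ω' → D.T ω = D.T ω' →
        ∀ l, 1 ≤ l → l < n → |zt D i j ω l - zt D i j ω' l| ≤ Real.exp (A * z) / 2 ^ X) →
      (∀ ω, 0 < q ω → |nr ω - zt D i j ω n| ≤ Real.exp (A * z) / 2 ^ H) →
      ∀ (Ω' : Type) [Fintype Ω'] (q' : Ω' → ℝ) (f : Ω' → D.Ω), SubL q π q' f →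
      ∀ r r' : ℕ, r ≤ r' → r' ≤ H → κ * H ≤ (r' : ℝ) - r →
        CH q' (fun ω => dg r' (nr (f ω)))
          (fun ω => (dg r (nr (f ω)), (V (f ω), (D.c i j (f ω), D.T (f ω))))) ≤
          (1 - h / 2) * ((r' : ℝ) - r) * Real.log 2 := by
  obtain ⟨C, hC, hch⟩ := charts n K
  obtain ⟨ϖ, M₀, hϖ, hd⟩ := dens (h / 4) π (by positivity) hπ
  obtain ⟨L, hL⟩ : ∃ L : ℝ, L = Real.log (8 * C ^ 2 + 10) := ⟨_, rfl⟩
  have hL0 : 0 ≤ L := by
    rw [hL]
    exact Real.log_nonneg (by linarith only [sq_nonneg C])
  have hCC : C ≤ C ^ 2 := by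
    have := mul_le_mul_of_nonneg_left hC (show 0 ≤ C by linarith only [hC])
    linarith [sq C]
  have hl2 : (1 : ℝ) / 2 ≤ Real.log 2 := by
    have := Real.log_two_gt_d9
    linarith only [this]
  have hl21 : Real.log 2 ≤ 1 := by
    have := Real.log_two_lt_d9
    linarith only [this]
  obtain ⟨H₁, hH₁⟩ := exists_nat_ge ((2 + |C₁| + (n + 1) * (L + A)) * 8 / (h * κ))
  obtain ⟨z₁, hz₁⟩ := exists_nat_ge (2 * M₀)
  refine ⟨max H₁ 1, max z₁ 1, ϖ, hϖ, ?_⟩
  intro D J a₀ w₀ z M lam gam κ' q hO hN hz i j H X hiH hj hgam hH hX 𝒱 V nr hV hnr Ω' _ q' f hs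
    r r' hr hr' hκr
  have hq := hO.isLaw
  have hq' := hs.isLaw
  have hi : i ≤ M := (Nat.le_add_right _ _).trans hiH
  have hz1 : 1 ≤ z := (le_max_right _ _).trans hz
  have hzR : (1 : ℝ) ≤ z := by exact_mod_cast hz1
  have hz0 : (0 : ℝ) < z := by linarith only [hzR]
  have hzM : M₀ ≤ z * Real.log 2 := by
    have h1 : (z₁ : ℝ) ≤ z := by exact_mod_cast (le_max_left _ _).trans hz
    have h2 : (z : ℝ) * (1 / 2) ≤ z * Real.log 2 := mul_le_mul_of_nonneg_left hl2 hz0.le
    linarith only [hz₁, h1, h2]
  exact by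
   have hHz : z ≤ H := by
     have h1 := Nat.mul_le_mul_right z (le_max_right H₁ 1)
     rw [one_mul] at h1
     exact h1.trans hH
   have hHR : (1 : ℝ) ≤ H := by exact_mod_cast hz1.trans hHz
   have hAz : 0 ≤ A * z := by positivity
   have hE : 1 ≤ Real.exp (A * z) := Real.one_le_exp hAz
   have hE0 : 0 < Real.exp (A * z) := by linarith only [hE]
   have hrr : r < r' := by
     have h1 : 0 < κ * (H : ℝ) := by positivity
     have h2 : (r : ℝ) < r' := by linarith only [hκr, h1]
     exact_mod_cast h2
   -- the rows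
   obtain ⟨R, hR⟩ : ∃ R, R = r / z := ⟨_, rfl⟩
   obtain ⟨R', hR'⟩ : ∃ R', R' = (r' + z - 1) / z := ⟨_, rfl⟩
   have a1 : R * z ≤ r := by
     rw [hR]
     exact Nat.div_mul_le_self r z
   have a2 : r < R * z + z := by
     rw [hR]
     exact Nat.lt_div_mul_add hz1
   have a3 : r' ≤ R' * z := by
     have h1 : r' + z - 1 < (r' + z - 1) / z * z + z := Nat.lt_div_mul_add hz1
     rw [hR']
     omega
   have a4 : R' * z ≤ r' + z := by
     have h1 : (r' + z - 1) / z * z ≤ r' + z - 1 := Nat.div_mul_le_self _ z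
     rw [hR']
     omega
   have a5 : R' ≤ H / z + 1 := by
     rw [hR', ← Nat.add_div_right H hz1]
     exact Nat.div_le_div_right (by omega)
   exact by
    have a6 : R < R' := by
      by_contra hc
      push Not at hc
      have := Nat.mul_le_mul_right z hc
      omega
    obtain ⟨U, rfl⟩ : ∃ U, R' = R + U := ⟨R' - R, by omega⟩
    have hU1 : 1 ≤ U := by omega
    have hUR : (1 : ℝ) ≤ U := by exact_mod_cast hU1
    -- pairs of samples
    have hbase : ∀ ω ω', 0 < q ω → 0 < q ω' → V ω = V ω' → D.c i j ω = D.c i j ω' →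
        D.T ω = D.T ω' → ∀ l, 1 ≤ l → l < n →
        |zs D i j ω l - zs D i j ω' l| ≤ C * (Real.exp (A * z) / 2 ^ X) := by
      intro ω ω' p p' e1 e2 e3 l l1 l2
      exact (hch hO hi hj p p' e2 e3 l1 l2.le (by positivity)).2 fun k k1 k2 =>
        hV ω ω' p p' e1 e2 e3 k k1 (lt_of_le_of_lt k2 l2)
    have hXr : ∀ s ≤ H, Real.exp (A * z) / 2 ^ X ≤ Real.exp (A * z) / 2 ^ s := by
      intro s hs
      refine div_le_div_of_nonneg_left hE0.le (by positivity)
        (pow_le_pow_right₀ one_le_two (hs.trans (le_trans ?_ hX)))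
      exact (Nat.le_add_right H z).trans (Nat.le_mul_of_pos_left _ hB)
    have hHr : ∀ s ≤ H, Real.exp (A * z) / 2 ^ H ≤ Real.exp (A * z) / 2 ^ s := by
      intro s hs
      exact div_le_div_of_nonneg_left hE0.le (by positivity) (pow_le_pow_right₀ one_le_two hs)
    have h1r : ∀ s t : ℕ, s ≤ t → (1 : ℝ) / 2 ^ t ≤ Real.exp (A * z) / 2 ^ s := by
      intro s t hst
      exact div_le_div₀ hE0.le hE (by positivity) (pow_le_pow_right₀ one_le_two hst)
    have hRH : (R + U) * z ≤ H + z := by omega
    -- the entropies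
    have b0 : CH q' (fun w => D.nd n i j ((R + U) * z) (f w)) (fun w => (D.nd n i j (R * z) (f w),
        (D.vd n i j (B * ((R + U) * z)) (f w), (D.s i j (f w), D.T (f w))))) ≤
        ((1 - h) * (U * z) * Real.log 2 + C₁ * z) + h / 4 * (U * z * Real.log 2) := by
      refine hd D.Ω _ _ q (D.nd n i j ((R + U) * z)) (fun ω => (D.nd n i j (R * z) ω,
        (D.vd n i j (B * ((R + U) * z)) ω, (D.s i j ω, D.T ω)))) _ _ hq ?_ ?_ ?_ Ω' q' f hs
      · have h1 := mul_le_mul_of_nonneg_right hUR (show 0 ≤ z * Real.log 2 by positivity)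
        rw [one_mul, ← mul_assoc] at h1
        exact hzM.trans h1
      · intro Ω'' _ q'' g hq''
        have e1 : CH q'' (fun w => D.nd n i j ((R + U) * z) (g w))
            (fun w => (D.nd n i j (R * z) (g w),
              (D.vd n i j (B * ((R + U) * z)) (g w), (D.s i j (g w), D.T (g w))))) ≤
            CH q'' (fun w => D.nd n i j ((R + U) * z) (g w) -
              2 ^ (U * z) * D.nd n i j (R * z) (g w)) (fun w => (D.nd n i j (R * z) (g w),
              (D.vd n i j (B * ((R + U) * z)) (g w), (D.s i j (g w), D.T (g w))))) := by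
          refine CH_mono_left hq''.nonneg fun w w' _ _ e => ?_
          simp only [Prod.mk.injEq] at e
          obtain ⟨f1, f2, _⟩ := e
          rw [f2] at f1
          linarith only [f1]
        refine e1.trans ((CH_lt hq'' _ _ (X := U * z) fun w _ => ?_).trans (le_of_eq ?_))
        · rw [nd_eq, nd_eq, add_mul]
          exact dig_split (R * z) (U * z) (zs D i j (g w) n)
        · push_cast
          ring
      · intro E hE'
        refine (hN i hi j hj R U (by omega) ?_ E hE').trans (le_of_eq ?_)
        · have : ((R + U : ℕ) : ℝ) ≤ ((H / z + 1 : ℕ) : ℝ) := by exact_mod_cast a5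
          push_cast at this
          linarith only [hgam, this]
        · rfl
    -- the base
    exact by
     have b1 : CH q' (fun w => D.vd n i j (B * ((R + U) * z)) (f w))
         (fun w => (V (f w), (D.c i j (f w), D.T (f w)))) ≤ (n - 1 : ℕ) * (L + A * z) := by
       have h1 := CH_le_vec hq'.nonneg hq'.sum_one (fun w => D.vd n i j (B * ((R + U) * z)) (f w))
         (fun w => (V (f w), (D.c i j (f w), D.T (f w)))) (fun _ => C * Real.exp (A * z) + 1)
         (fun w w' hw hw' e l => by
           simp only [Prod.mk.injEq] at e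
           obtain ⟨e1, e2, e3⟩ := e
           rw [vd_eq, vd_eq]
           refine dig_near ?_
           refine (hbase _ _ (hs.pos hπ hw) (hs.pos hπ hw') e1 e2 e3 (l + 1) (by omega)
             (by have := l.2; omega)).trans ?_
           rw [mul_assoc, mul_one_div]
           refine mul_le_mul_of_nonneg_left (div_le_div_of_nonneg_left hE0.le (by positivity)
             (pow_le_pow_right₀ one_le_two (le_trans ?_ hX))) (by linarith only [hC])
           exact Nat.mul_le_mul_left B hRH)
       rw [Ex_const hq'.sum_one] at h1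
       refine h1.trans (mul_le_mul_of_nonneg_left ?_ (Nat.cast_nonneg _))
       rw [hL]
       exact log_exp_le (by linarith only [hC]) hAz (by linarith only [hC, hCC])
     -- from the digits of the height over the visible side to the line side
     have b2 : CH q' (fun w => dg r' (nr (f w))) (fun w => (D.nd n i j ((R + U) * z) (f w),
         (dg r (nr (f w)), (V (f w), (D.c i j (f w), D.T (f w)))))) ≤ L + A * z := by
       have h1 := CH_int hq' (fun w => dg r' (nr (f w))) (fun w => (D.nd n i j ((R + U) * z) (f w),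
         (dg r (nr (f w)), (V (f w), (D.c i j (f w), D.T (f w))))))
         (c := (C * C + 2) * Real.exp (A * z) + 1) (fun w w' hw hw' e => by
           simp only [Prod.mk.injEq] at e
           obtain ⟨e0, _, e1, e2, e3⟩ := e
           have p := hs.pos hπ hw
           have p' := hs.pos hπ hw'
           rw [nd_eq, nd_eq] at e0
           have g1 : |zt D i j (f w) n - zt D i j (f w') n| ≤
               C * (C * (Real.exp (A * z) / 2 ^ r')) := by
             refine (hch hO hi hj p p' e2 e3 hn le_rfl (by positivity)).1 fun k k1 k2 => ?_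
             rcases Nat.lt_or_ge k n with h6 | h6
             · exact (hbase _ _ p p' e1 e2 e3 k k1 h6).trans
                 (mul_le_mul_of_nonneg_left (hXr r' hr') (by linarith only [hC]))
             · obtain rfl : k = n := by omega
               refine (dig_eq e0).trans ((h1r r' _ a3).trans ?_)
               exact le_mul_of_one_le_left (by positivity) hC
           have g2 := hnr _ p
           have g3 := hnr _ p'
           have g4 := hHr r' hr'
           refine dig_near ?_
           have g5 : |nr (f w) - nr (f w')| ≤ Real.exp (A * z) / 2 ^ r' +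
               C * (C * (Real.exp (A * z) / 2 ^ r')) + Real.exp (A * z) / 2 ^ r' := by
             have := abs_le.1 g1
             have := abs_le.1 g2
             have := abs_le.1 g3
             rw [abs_le]
             constructor <;> linarith
           refine g5.trans (le_of_eq ?_)
           ring)
       refine h1.trans ?_
       rw [hL]
       exact log_exp_le (by positivity) hAz (by linarith only [hC, hCC, sq C])
     exact by
      have b3 : CH q' (fun w => D.nd n i j (R * z) (f w))
          (fun w => (dg r (nr (f w)), (V (f w), (D.c i j (f w), D.T (f w))))) ≤ L + A * z := by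
        have h1 := CH_int hq' (fun w => D.nd n i j (R * z) (f w))
          (fun w => (dg r (nr (f w)), (V (f w), (D.c i j (f w), D.T (f w)))))
          (c := (3 * C) * Real.exp (A * z) + 1) (fun w w' hw hw' e => by
            simp only [Prod.mk.injEq] at e
            obtain ⟨e0, e1, e2, e3⟩ := e
            have p := hs.pos hπ hw
            have p' := hs.pos hπ hw'
            have g0 := (dg_eq' e0).trans (h1r (R * z) r a1)
            have g2 := hnr _ p
            have g3 := hnr _ p'
            have hRz : R * z ≤ H := a1.trans (hr.trans hr')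
            have g4 := hHr (R * z) hRz
            have g5 : |zt D i j (f w) n - zt D i j (f w') n| ≤ 3 * (Real.exp (A * z) / 2 ^ (R * z)) := by
              have := abs_le.1 g0
              have := abs_le.1 g2
              have := abs_le.1 g3
              rw [abs_le]
              constructor <;> linarith
            rw [nd_eq, nd_eq]
            refine dig_near ?_
            have g6 : |zs D i j (f w) n - zs D i j (f w') n| ≤
                C * (3 * (Real.exp (A * z) / 2 ^ (R * z))) := by
              refine (hch hO hi hj p p' e2 e3 hn le_rfl (by positivity)).2 fun k k1 k2 => ?_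
              rcases Nat.lt_or_ge k n with h6 | h6
              · refine (hV _ _ p p' e1 e2 e3 k k1 h6).trans ((hXr _ hRz).trans ?_)
                have : 0 ≤ Real.exp (A * z) / 2 ^ (R * z) := by positivity
                linarith only [this]
              · obtain rfl : k = n := by omega
                exact g5
            refine g6.trans (le_of_eq ?_)
            ring)
        refine h1.trans ?_
        rw [hL]
        exact log_exp_le (by positivity) hAz (by linarith only [hC, hCC])
      -- together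
      exact by
       have c1 := CH_le_add hq'.nonneg (fun w => dg r' (nr (f w)))
         (fun w => D.nd n i j ((R + U) * z) (f w))
         (fun w => (dg r (nr (f w)), (V (f w), (D.c i j (f w), D.T (f w)))))
       have c2 := CH_few hq'.nonneg (fun w => D.nd n i j ((R + U) * z) (f w))
         (fun w => D.nd n i j (R * z) (f w))
         (fun w => (dg r (nr (f w)), (V (f w), (D.c i j (f w), D.T (f w)))))
       have c3 : CH q' (fun w => D.nd n i j ((R + U) * z) (f w)) (fun w => (D.nd n i j (R * z) (f w),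
           (dg r (nr (f w)), (V (f w), (D.c i j (f w), D.T (f w)))))) ≤
           CH q' (fun w => D.nd n i j ((R + U) * z) (f w)) (fun w => (D.nd n i j (R * z) (f w),
             (V (f w), (D.c i j (f w), D.T (f w))))) :=
         CH_mono_cond hq'.nonneg fun w w' _ _ e => by
           simp only [Prod.mk.injEq] at e ⊢
           tauto
       have c4 := CH_few hq'.nonneg (fun w => D.nd n i j ((R + U) * z) (f w))
         (fun w => D.vd n i j (B * ((R + U) * z)) (f w))
         (fun w => (D.nd n i j (R * z) (f w), (V (f w), (D.c i j (f w), D.T (f w)))))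
       have c5 : CH q' (fun w => D.vd n i j (B * ((R + U) * z)) (f w))
           (fun w => (D.nd n i j (R * z) (f w), (V (f w), (D.c i j (f w), D.T (f w))))) ≤
           CH q' (fun w => D.vd n i j (B * ((R + U) * z)) (f w))
             (fun w => (V (f w), (D.c i j (f w), D.T (f w)))) :=
         CH_mono_cond hq'.nonneg fun w w' _ _ e => (Prod.ext_iff.1 e).2
       have c6 : CH q' (fun w => D.nd n i j ((R + U) * z) (f w))
           (fun w => (D.vd n i j (B * ((R + U) * z)) (f w), (D.nd n i j (R * z) (f w),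
             (V (f w), (D.c i j (f w), D.T (f w)))))) ≤
           CH q' (fun w => D.nd n i j ((R + U) * z) (f w)) (fun w => (D.nd n i j (R * z) (f w),
             (D.vd n i j (B * ((R + U) * z)) (f w), (D.s i j (f w), D.T (f w))))) :=
         CH_mono_cond hq'.nonneg fun w w' hw hw' e => by
           simp only [Prod.mk.injEq] at e ⊢
           obtain ⟨e1, e2, _, e4, e5⟩ := e
           exact ⟨e2, e1, hO.s_c i hi j hj _ _ (hs.pos hπ hw) (hs.pos hπ hw') (Prod.ext e4 e5), e5⟩
       -- numbers
       exact by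
        have d1 : ((U : ℝ) * z) ≤ (r' : ℝ) - r + 2 * z := by
          have h1 : (R + U) * z + r ≤ r' + z + (R * z + z) := by omega
          have h2 : (((R + U) * z + r : ℕ) : ℝ) ≤ ((r' + z + (R * z + z) : ℕ) : ℝ) := by
            exact_mod_cast h1
          push_cast at h2
          linarith only [h2]
        have d2 : (n - 1 : ℕ) * (L + A * z) + 2 * (L + A * z) ≤ (n + 1) * (L + A) * z := by
          have h1 : (((n - 1 : ℕ) : ℝ)) = n - 1 := by
            push_cast [Nat.cast_sub hn]
            ring
          rw [h1]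
          have h2 : L + A * z ≤ (L + A) * z := by
            have := mul_le_mul_of_nonneg_left hzR hL0
            linarith only [this]
          have h3 := mul_le_mul_of_nonneg_left h2 (show (0 : ℝ) ≤ n + 1 by positivity)
          linarith only [h3]
        have d3 : C₁ * z ≤ |C₁| * z := mul_le_mul_of_nonneg_right (le_abs_self _) (by linarith only [hzR])
        have d4 : (2 + |C₁| + (n + 1) * (L + A)) * z ≤ h / 8 * ((r' : ℝ) - r) := by
          have h1 : (H₁ : ℝ) * z ≤ H := by
            have h2 := (Nat.mul_le_mul_right z (le_max_left H₁ 1)).trans hH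
            exact_mod_cast h2
          rw [div_le_iff₀ (by positivity)] at hH₁
          have h3 := mul_le_mul_of_nonneg_right hH₁ hz0.le
          have h4 := mul_le_mul_of_nonneg_left hκr hh.le
          have h5 := mul_le_mul_of_nonneg_left h1 (mul_pos hh hκ).le
          have e1 : (2 + |C₁| + (n + 1) * (L + A)) * 8 * z = 8 * ((2 + |C₁| + (n + 1) * (L + A)) * z) := by
            ring
          have e2 : (H₁ : ℝ) * (h * κ) * z = h * κ * (H₁ * z) := by ring
          have e3 : h * (κ * H) = h * κ * H := by ring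
          rw [e1, e2] at h3
          rw [e3] at h4
          linarith only [h3, h4, h5]
        exact by
         have d5 : (1 - h + h / 4) * (U * z * Real.log 2) ≤
             (1 - h + h / 4) * (((r' : ℝ) - r + 2 * z) * Real.log 2) :=
           mul_le_mul_of_nonneg_left (mul_le_mul_of_nonneg_right d1 (by linarith only [hl2])) (by linarith only [hh1])
         have d6 : (1 - h + h / 4) * (2 * z * Real.log 2) ≤ 2 * z := by
           have h1 : 2 * (z : ℝ) * Real.log 2 ≤ 2 * (z : ℝ) * 1 :=
             mul_le_mul_of_nonneg_left hl21 (by positivity)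
           have h2 : 0 ≤ 2 * (z : ℝ) * Real.log 2 := by positivity
           have h3 : (1 - h + h / 4) * (2 * z * Real.log 2) ≤ 1 * (2 * z * Real.log 2) :=
             mul_le_mul_of_nonneg_right (by linarith only [hh]) h2
           linarith only [h1, h3]
         have d7 : h / 8 * ((r' : ℝ) - r) ≤ h / 4 * (((r' : ℝ) - r) * Real.log 2) := by
           have h0 : 0 ≤ (r' : ℝ) - r := by
             have : (r : ℝ) ≤ r' := by exact_mod_cast hr
             linarith only [this]
           have h1 : ((r' : ℝ) - r) * (1 / 2) ≤ ((r' : ℝ) - r) * Real.log 2 :=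
             mul_le_mul_of_nonneg_left hl2 h0
           have h2 := mul_le_mul_of_nonneg_left h1 (show 0 ≤ h / 4 by positivity)
           linarith only [h2]
         have e1 : ((1 - h) * (U * z) * Real.log 2 + C₁ * z) + h / 4 * (U * z * Real.log 2) =
             (1 - h + h / 4) * (U * z * Real.log 2) + C₁ * z := by ring
         have e2 : (1 - h + h / 4) * (((r' : ℝ) - r + 2 * z) * Real.log 2) =
             (1 - h + h / 4) * (((r' : ℝ) - r) * Real.log 2) + (1 - h + h / 4) * (2 * z * Real.log 2) := by
           ring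
         have e3 : (2 + |C₁| + (n + 1) * (L + A)) * z =
             2 * z + |C₁| * z + (n + 1) * (L + A) * z := by ring
         have e4 : (1 - h / 2) * ((r' : ℝ) - r) * Real.log 2 =
             (1 - h + h / 4) * (((r' : ℝ) - r) * Real.log 2) + h / 4 * (((r' : ℝ) - r) * Real.log 2) := by
           ring
         rw [e1] at b0
         rw [e2] at d5
         exact by
          rw [e3] at d4
          rw [e4]
          linarith only [b0, b1, b2, b3, c1, c2, c3, c4, c5, c6, d2, d3, d4, d5, d6, d7]

/-- **Nonfull rows of a cell in the form of STEP V.** -/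
theorem nfd : Pool.GSD.NfdStmt := by
  intro n K B lam gam C₁ h κ π hn hB hC₁ hh hh1 hκ hπ
  obtain ⟨H₀, z₀, ϖ, hϖ, H⟩ := nfd_gen n K B C₁ h κ π 3 hn hB hh hh1 hκ hπ (by norm_num)
  refine ⟨ϖ, max H₀ B, max z₀ 1, hϖ, ?_⟩
  intro J a₀ w₀ z M i j X h₀ κ' D q s hz hh₀ hX hi hj hgam hκ' hO hN Ω' _ q' f hs r r' hr hr' hκr
  have hz1 : (1 : ℝ) ≤ z := by exact_mod_cast (le_max_right _ _).trans hz
  have hi' : i ≤ M := ((Nat.le_add_right _ _).trans (Nat.le_add_right _ _)).trans hi
  have e4 : 4 * (2 : ℝ) ^ z ≤ Real.exp (3 * z) := by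
    have h0 : (2 : ℝ) ≤ Real.exp 1 := by linarith only [Real.add_one_le_exp (1 : ℝ)]
    have h1 : (2 : ℝ) ^ z ≤ Real.exp (z * 1) := by
      rw [Real.exp_nat_mul]
      exact pow_le_pow_left₀ (by norm_num) h0 z
    have h2 : (4 : ℝ) ≤ Real.exp (2 * z) := by
      have h3 : Real.exp 1 * Real.exp 1 ≤ Real.exp (2 * z) := by
        rw [← Real.exp_add]
        exact Real.exp_le_exp.2 (by linarith only [hz1])
      have h4 : (2 : ℝ) * 2 ≤ Real.exp 1 * Real.exp 1 :=
        mul_le_mul h0 h0 (by norm_num) (Real.exp_pos 1).le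
      linarith only [h3, h4]
    have h5 : Real.exp (3 * z) = Real.exp (2 * z) * Real.exp (z * 1) := by
      rw [← Real.exp_add]
      congr 1
      ring
    rw [h5]
    exact mul_le_mul h2 h1 (by positivity) (Real.exp_pos _).le
  refine H D J a₀ w₀ z M lam gam κ' q hO hN ((le_max_left _ _).trans hz) i j h₀ X
    (by rw [← add_assoc]; exact (Nat.le_succ _).trans hi) hj
    (by linarith only [hgam]) ((Nat.mul_le_mul_right z (le_max_left _ _)).trans hh₀) ?_
    (fun ω => fun l => (Yp D n z i j X ω l : ℤ)) (fun ω => (nuA D n i j h₀ ω : ℝ) / 2 ^ h₀)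
    ?_ ?_ Ω' q' f hs r r' hr hr' hκr
  · rw [mul_add]
    exact le_trans (Nat.add_le_add_left (Nat.mul_le_mul_right z (le_max_right _ _)) _) hX
  · intro ω ω' p p' e1 e2 e3 l l1 l2
    obtain ⟨l, rfl⟩ : ∃ m, l = m + 1 := ⟨l - 1, by omega⟩
    have y1 := Yp_near (z := z) hO hi' hj p X ⟨l, by omega⟩
    have y2 := Yp_near (z := z) hO hi' hj p' X ⟨l, by omega⟩
    have e5 : (Yp D n z i j X ω ⟨l, by omega⟩ : ℤ) = Yp D n z i j X ω' ⟨l, by omega⟩ :=
      congrFun e1 _
    have e6 : (Yp D n z i j X ω ⟨l, by omega⟩ : ℝ) = Yp D n z i j X ω' ⟨l, by omega⟩ := by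
      exact_mod_cast e5
    rw [e6] at y1
    simp only at y1 y2
    have e7 : zt D i j ω (l + 1) - zt D i j ω' (l + 1) = 4 * 2 ^ z *
        (up z (zt D i j ω (l + 1)) - up z (zt D i j ω' (l + 1))) := by
      unfold up
      field_simp
      ring
    rw [e7, abs_mul, abs_of_pos (by positivity), ← mul_one_div]
    refine mul_le_mul e4 ?_ (abs_nonneg _) (Real.exp_pos _).le
    rw [abs_le]
    constructor <;> linarith only [hn, l2, y1, y2, y1.1, y1.2.1, y2.1, y2.2.1]
  · intro ω _
    have h1 := dg_le h₀ (zt D i j ω n)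
    rw [abs_sub_comm]
    refine le_trans h1 (div_le_div_of_nonneg_right ?_ (by positivity))
    exact Real.one_le_exp (by positivity)

end Pool.TIE
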